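import Mathlib
import Pool.Agent.R243.WN.Weights

set_option autoImplicit false

/-!
# The dyadic `U^α` means are not uniformly bounded from `H_{1/(1+α)}` to `L_{1/(1+α)}`

The extremal functions are the atoms `f = r_N D_{2^N}`. Up to sign `Q_{2^{N+1}} U_{2^{N+1}}^α f`
is the kernel sum `Σ_{j<2^N} (j+1)^{α-1} D_j` off `I_N(0)`, and its `p`-th power has integral
bounded below on each of the disjoint sets `B_s` (`x_j = 0` for `j < s`, `x_s = x_{s+1} = 1`),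
`s ≤ N - 2`.
-/

namespace Pool.Agent.Results.MP_d27c5e_an.EndpointFails

open Filter Topology MeasureTheory Set
open scoped ENNReal NNReal
open Pool.Agent.R243.WN

/-- the means `U_n^α f = (1/Q_n) Σ_{k=1}^n (n+1-k)^{α-1} S_k f`, `Q_n = Σ_{k=1}^n k^{α-1}` -/
noncomputable def U (α : ℝ) (n : ℕ) (f : ℕ → G → ℝ) (x : G) : ℝ :=
  (1 / ∑ k ∈ Finset.Icc 1 n, (k : ℝ) ^ (α - 1)) *
    ∑ k ∈ Finset.Icc 1 n, ((n : ℝ) + 1 - k) ^ (α - 1) * S f k x

theorem Q_eq (α : ℝ) (n : ℕ) : ∑ k ∈ Finset.Icc 1 n, (k : ℝ) ^ (α - 1) =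
    ∑ i ∈ Finset.range n, ((i:ℝ) + 1) ^ (α - 1) := by
  rw [Finset.sum_bij' (fun k _ => k - 1) (fun i _ => i + 1)]
  · intro k hk
    rw [Finset.mem_Icc] at hk
    rw [Finset.mem_range]
    omega
  · intro i hi
    rw [Finset.mem_range] at hi
    rw [Finset.mem_Icc]
    omega
  · intro k hk
    rw [Finset.mem_Icc] at hk
    omega
  · intro i _
    simp
  · intro k hk
    rw [Finset.mem_Icc] at hk
    rw [Nat.cast_sub hk.1]
    simp

theorem result (α : ℝ) (h0 : 0 < α) (h1 : α < 1) (C : ℝ≥0) :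
    ∃ f : ℕ → G → ℝ, Martingale f F mu ∧ hpNorm (1 / (1 + α)) f < ⊤ ∧
      ∃ n : ℕ, C * hpNorm (1 / (1 + α)) f < pNorm (1 / (1 + α)) (U α (2 ^ n) f) := by
  have hZ0 : ∀ N : ℕ, 0 < ∑ k ∈ (Finset.Icc 1 (2 ^ (N + 1)) : Finset ℕ), (k : ℝ) ^ (α - 1) := by
    intro N
    refine Finset.sum_pos (fun k hk => ?_) ?_
    · rw [Finset.mem_Icc] at hk
      have : (0:ℝ) < k := by exact_mod_cast hk.1
      positivity
    · rw [Finset.nonempty_Icc]
      exact Nat.one_le_two_pow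
  have hZ : ∀ N : ℕ, ∑ k ∈ (Finset.Icc 1 (2 ^ (N + 1)) : Finset ℕ), (k : ℝ) ^ (α - 1) ≤
      2 ^ α / α * ((2:ℝ) ^ N) ^ α := by
    intro N
    rw [Q_eq]
    refine (sum_pow_le h0 h1 _).trans (le_of_eq ?_)
    push_cast
    rw [pow_succ, mul_comm, Real.mul_rpow (by norm_num) (by positivity)]
    ring
  obtain ⟨N, hN⟩ := unbounded h0 (good_U h0 h1)
    (Z := fun n : ℕ => ∑ k ∈ Finset.Icc 1 n, (k : ℝ) ^ (α - 1)) (C2 := 2 ^ α / α) hZ0 hZ C
  refine ⟨atom N, atom_martingale N, ?_, N + 1, ?_⟩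
  · rw [atom_norm h0]
    exact ENNReal.ofReal_lt_top
  · refine hN.trans_le (le_of_eq ?_)
    congr 1
    funext x
    unfold U nor
    rw [one_div]
    congr 1
    refine Finset.sum_congr rfl fun k hk => ?_
    rw [Finset.mem_Icc] at hk
    congr 1
    show (((2 ^ (N + 1) - k : ℕ) : ℝ) + 1) ^ (α - 1) = (((2 ^ (N + 1) : ℕ) : ℝ) + 1 - k) ^ (α - 1)
    rw [Nat.cast_sub hk.2]
    congr 1
    ring

end Pool.Agent.Results.MP_d27c5e_an.EndpointFails
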